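import Pool.Agent.Helper54.PT.DefsF

/-!
Module B10 of the TE project (MP_1d384c_nt): the finite set of bad primes.
-/

set_option autoImplicit false

namespace Pool.Agent.Helper54.PT

open Polynomial Finset

theorem te_b10_finite {F : Type} [Field F] [Finite F] {f : F[X]} (hf : f ≠ 0) :
    Finite {P : Prm F // P.1 ∣ f} := by
  have h1 : {g : F[X] | g.natDegree ≤ f.natDegree}.Finite := finite_natDegree_le F f.natDegree
  have := h1.to_subtype
  refine Finite.of_injective
    (fun P : {P : Prm F // P.1 ∣ f} =>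
      (⟨P.1.1, natDegree_le_of_dvd P.2 hf⟩ : {g : F[X] | g.natDegree ≤ f.natDegree})) ?_
  intro P Q h
  have h2 : P.1.1 = Q.1.1 := by
    simpa using h
  exact Subtype.ext (Subtype.ext h2)

/-- B10: the bad primes -/
theorem exists_setupF {F : Type} [Field F] [Finite F] {α β : F[X]} (hα : α ≠ 0) (hβ : β ≠ 0)
    (hγ : β - α ≠ 0) :
    ∃ (σ : Type) (_ : Fintype σ) (_ : DecidableEq σ) (R : σ → Prm F), SetupF R α β := by
  classical
  have := te_b10_finite (F := F) (f := α * β * (β - α)) (mul_ne_zero (mul_ne_zero hα hβ) hγ)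
  refine ⟨{P : Prm F // P.1 ∣ α * β * (β - α)}, Fintype.ofFinite _, inferInstance,
    fun P => P.1, ?_⟩
  let _ := Fintype.ofFinite {P : Prm F // P.1 ∣ α * β * (β - α)}
  exact
    { inj := Subtype.val_injective
      hα := hα
      hβ := hβ
      hγ := hγ
      mem := fun P => ⟨fun ⟨r, hr⟩ => hr ▸ r.2, fun h => ⟨⟨P, h⟩, rfl⟩⟩ }

end Pool.Agent.Helper54.PT
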